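import Mathlib
import Pool.Agent.Lib_helper12.HK.Defs

/-!
# Project HK (MP_5fc650_pr), Part D: patterns. Definitions.

Paper: `/team-store/HK_paper_helper12.md`, Part D. Planar coordinates `s : ℤ × ℤ` around a site
`z`; the even site `z + s` is `es n z s` (for even `s`).
-/

set_option autoImplicit false

namespace HK

open MeasureTheory QG

/-- the `l¹` distance in `ℤ × ℤ` -/
def d1 (s t : ℤ × ℤ) : ℤ := |s.1 - t.1| + |s.2 - t.2|

/-- even points of `ℤ × ℤ` -/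
def evn (s : ℤ × ℤ) : Prop := Even (s.1 + s.2)

/-- the point of the lattice `2 m ℤ × 2 m ℤ` with index `x` -/
def sm (m : ℕ) (x : ℤ × ℤ) : ℤ × ℤ := (2 * m * x.1, 2 * m * x.2)

/-- the radius of the region in which the field is changed -/
def rQ (m : ℕ) : ℕ := 16000 * m

/-- a profile along the strip `[0, 2 m]`: slope `σ`, no small increments -/
structure Prof (m : ℕ) (v σ : ℝ) (P : ℤ → ℝ) : Prop where
  zero : P 0 = v
  last : P (2 * m) = v + 2 * m * σ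
  lip : ∀ s t : ℤ, |P s - P t| ≤ |s - t|
  lin : ∀ s : ℤ, 0 ≤ s → s ≤ 2 * m → |P s - (v + σ * s)| ≤ ep
  slope : ∀ j : ℕ, j < m →
    (ep / 4 ≤ P (2 * j + 1) - P (2 * j) ∧ ep / 4 ≤ P (2 * j + 2) - P (2 * j + 1)) ∨
    (ep / 4 ≤ P (2 * j) - P (2 * j + 1) ∧ ep / 4 ≤ P (2 * j + 1) - P (2 * j + 2))

/-- along the strip the corners on the line are extremal with margin `δ` -/
def Mar (m : ℕ) (δ : ℝ) (ψ : ℤ × ℤ → ℝ) : Prop :=
  ∀ j : ℕ, j < m →
    (∀ u : ℤ, u = 1 ∨ u = -1 → δ ≤ ψ (2 * j + 2, 0) - ψ (2 * j + 1, u) ∧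
      δ ≤ ψ (2 * j + 1, u) - ψ (2 * j, 0)) ∨
    (∀ u : ℤ, u = 1 ∨ u = -1 → δ ≤ ψ (2 * j, 0) - ψ (2 * j + 1, u) ∧
      δ ≤ ψ (2 * j + 1, u) - ψ (2 * j + 2, 0))

/-- the symmetry of `ℤ × ℤ` that maps `(1, 0)` to `dz i` -/
def rt (i : Fin 4) (s : ℤ × ℤ) : ℤ × ℤ := ![(-s.1, s.2), (s.1, s.2), (s.2, s.1), (s.2, -s.1)] i

/-- the even site `z + s`, for even `s` -/
def es (n : ℕ) (z : Ev n) (s : ℤ × ℤ) : Ev n := ch n z ((s.1 + s.2) / 2) ((s.1 - s.2) / 2)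

open Classical in
/-- the sites in the region around `ke n m k` at which the field is changed -/
noncomputable def QN (n m : ℕ) [NeZero n] (k : ℤ × ℤ) : Finset (Ev n) :=
  (nonK n m).filter fun y => ∃ s, evn s ∧ di 0 s ≤ rQ m ∧ es n (ke n m k) s = y

/-- the pattern with strict inequalities -/
def PatO (n m : ℕ) (a : Ev n → ℝ) (k : ℤ × ℤ) (i : Fin 4) : Prop :=
  ∀ j < m,
    ((∀ c, c ≠ i → a (cn n (sc n m k i j) c) < a (cn n (sc n m k i j) i)) ∧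
      ∀ c, c ≠ op i → a (cn n (sc n m k i j) (op i)) < a (cn n (sc n m k i j) c)) ∨
    ((∀ c, c ≠ op i → a (cn n (sc n m k i j) c) < a (cn n (sc n m k i j) (op i))) ∧
      ∀ c, c ≠ i → a (cn n (sc n m k i j) i) < a (cn n (sc n m k i j) c))

end HK
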